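import Pool.Agent.H62.OVN.Exh

/-!
# Exhaustion of an event by parts with large entropy
-/

set_option autoImplicit false

namespace Pool.LF65

open Finset Real
open Pool.Agent.H49.Ent Pool.Agent.H32.Dense Pool.STK Pool.KA Pool.KSAT Pool.K2S

variable {Ω S T : Type} [Fintype Ω]

theorem Pe_split {p : Ω → ℝ} {B B' : Ω → Prop} (hs : Sub B' B) :
    Pe p B = Pe p B' + Pe p (fun ω => B ω ∧ ¬ B' ω) := by
  classical
  rw [Pe_eq, Pe_eq, Pe_eq, ← Finset.sum_add_distrib]
  refine Finset.sum_congr rfl fun ω _ => ?_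
  by_cases h8 : B ω
  · by_cases h9 : B' ω <;> simp [h8, h9]
  · have h9 : ¬ B' ω := fun h => h8 (hs ω h)
    simp [h8, h9]

/-- The entropy given an event and the entropies given its parts. -/
theorem CH_split_low {p : Ω → ℝ} (hp : IsLaw p) {B B' : Ω → Prop} (hs : Sub B' B)
    (hB : 0 < Pe p B) (X : Ω → S) (Y : Ω → T) :
    Pe p B' * CH (Pool.Agent.H49.Ent.cond p B' True) X Y +
      Pe p (fun ω => B ω ∧ ¬ B' ω) *
        CH (Pool.Agent.H49.Ent.cond p (fun ω => B ω ∧ ¬ B' ω) True) X Y ≤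
    Pe p B * CH (Pool.Agent.H49.Ent.cond p B True) X Y := by
  classical
  obtain ⟨q, hq⟩ : ∃ q, q = Pool.Agent.H49.Ent.cond p B True := ⟨_, rfl⟩
  have hql : IsLaw q := by rw [hq]; exact isLaw_cond hp hB
  have h1 := Pool.KJ.CH_two hql.nonneg X Y B'
  have h2 : CH q X (fun v => (Y v, decide (B' v))) ≤ CH q X Y :=
    CH_mono_cond hql.nonneg fun _ _ _ _ h => (Prod.ext_iff.mp h).1
  have hqB : ∀ ω, q ω ≠ 0 → B ω := by
    intro ω hω
    rw [hq] at hω
    unfold Pool.Agent.H49.Ent.cond at hω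
    by_contra hcon
    exact hω (if_neg (fun h => hcon (of_eq_true h)))
  have e1 : Pool.Agent.H49.Ent.cond q B' False =
      Pool.Agent.H49.Ent.cond q (fun ω => B ω ∧ ¬ B' ω) True := by
    have hl : law q B' False = law q (fun ω => B ω ∧ ¬ B' ω) True := by
      unfold law
      refine Finset.sum_congr rfl fun ω _ => ?_
      by_cases h0 : q ω = 0
      · rw [h0, ite_self, ite_self]
      · have hB0 := hqB ω h0
        by_cases h5 : B' ω <;> simp [h5, hB0]
    funext ω
    unfold Pool.Agent.H49.Ent.cond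
    rw [hl]
    by_cases h0 : q ω = 0
    · rw [h0, zero_div, ite_self, ite_self]
    · have hB0 := hqB ω h0
      by_cases h5 : B' ω <;> simp [h5, hB0]
  have hs2 : Sub (fun ω => B ω ∧ ¬ B' ω) B := fun ω hω => hω.1
  have e2 := Piece.cond_cond hs hB.ne'
  have e3 := Piece.cond_cond hs2 hB.ne'
  rw [← hq] at e2 e3
  have l1 : law q B' True = Pe p B' / Pe p B := by
    rw [hq]
    refine (Pe_cond (p := p) (A := B) B').trans ?_
    congr 1
    congr 1
    funext ω
    exact propext ⟨fun h' => h'.2, fun h' => ⟨hs ω h', h'⟩⟩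
  have l2 : law q B' False = Pe p (fun ω => B ω ∧ ¬ B' ω) / Pe p B := by
    have h6 : law q B' True + law q B' False = 1 := by
      rw [← hql.sum_one]
      unfold law
      rw [← Finset.sum_add_distrib]
      refine Finset.sum_congr rfl fun ω _ => ?_
      by_cases h : B' ω <;> simp [h]
    have h7 := Pe_split (p := p) hs
    rw [l1] at h6
    have h8 : law q B' False = 1 - Pe p B' / Pe p B := by linarith
    rw [h8, eq_div_iff hB.ne', sub_mul, div_mul_cancel₀ _ hB.ne', one_mul]
    linarith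
  rw [e1, e2, e3, l1, l2] at h1
  rw [← hq]
  have h5 := h1.symm.trans_le h2
  refine le_trans (le_of_eq ?_) (mul_le_mul_of_nonneg_left h5 hB.le)
  have h6 := hB.ne'
  field_simp

/-- **Exhaustion.** If each large part of `A` has a part of proportion `c` with the entropy at
least `E`, then the entropy given `A` is at least `(1 - η) E`. -/
theorem CH_exhaust_low {p : Ω → ℝ} (hp : IsLaw p) {A : Ω → Prop} (hA : 0 < Pe p A) (X : Ω → S)
    (Y : Ω → T) {c η E : ℝ} (hc : 0 < c) (hc1 : c ≤ 1) (hη : 0 < η) (hE0 : 0 ≤ E)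
    (hE : ∀ B : Ω → Prop, Sub B A → η * Pe p A ≤ Pe p B → ∃ B' : Ω → Prop, Sub B' B ∧
      c * Pe p B ≤ Pe p B' ∧ E ≤ CH (Pool.Agent.H49.Ent.cond p B' True) X Y) :
    (1 - η) * E ≤ CH (Pool.Agent.H49.Ent.cond p A True) X Y := by
  classical
  have key : ∀ n : ℕ, ∀ B : Ω → Prop, Sub B A → 0 < Pe p B →
      Pe p B * E - max ((1 - c) ^ n * Pe p B) (η * Pe p A) * E ≤
        Pe p B * CH (Pool.Agent.H49.Ent.cond p B True) X Y := by
    intro n
    induction n with
    | zero =>
      intro B hB hPB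
      have h1 : 0 ≤ Pe p B * CH (Pool.Agent.H49.Ent.cond p B True) X Y :=
        mul_nonneg hPB.le (CH_nonneg (cond_nonneg hp.nonneg _ _) _ _)
      have h2 : Pe p B * E ≤ max ((1 - c) ^ 0 * Pe p B) (η * Pe p A) * E :=
        mul_le_mul_of_nonneg_right (by rw [pow_zero, one_mul]; exact le_max_left _ _) hE0
      linarith
    | succ n ih =>
      intro B hB hPB
      by_cases hsm : Pe p B < η * Pe p A
      · have h1 : 0 ≤ Pe p B * CH (Pool.Agent.H49.Ent.cond p B True) X Y :=
          mul_nonneg hPB.le (CH_nonneg (cond_nonneg hp.nonneg _ _) _ _)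
        have h2 : Pe p B * E ≤ max ((1 - c) ^ (n + 1) * Pe p B) (η * Pe p A) * E :=
          mul_le_mul_of_nonneg_right (hsm.le.trans (le_max_right _ _)) hE0
        linarith
      · obtain ⟨B', hs, hPB', hEB'⟩ := hE B hB (not_lt.1 hsm)
        have h7 := Pe_split (p := p) hs
        have h8 : Pe p (fun ω => B ω ∧ ¬ B' ω) ≤ (1 - c) * Pe p B := by linarith
        have h9 : 0 ≤ Pe p (fun ω => B ω ∧ ¬ B' ω) := Pe_nonneg hp _
        have h10 : 0 ≤ Pe p B' := Pe_nonneg hp _
        have h11 := CH_split_low hp hs hPB X Y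
        have h12 : Pe p B' * E ≤ Pe p B' * CH (Pool.Agent.H49.Ent.cond p B' True) X Y :=
          mul_le_mul_of_nonneg_left hEB' h10
        have h13 : Pe p (fun ω => B ω ∧ ¬ B' ω) * E -
            max ((1 - c) ^ (n + 1) * Pe p B) (η * Pe p A) * E ≤
            Pe p (fun ω => B ω ∧ ¬ B' ω) *
              CH (Pool.Agent.H49.Ent.cond p (fun ω => B ω ∧ ¬ B' ω) True) X Y := by
          rcases h9.eq_or_lt with h0 | h0
          · rw [← h0, zero_mul, zero_mul]
            have : 0 ≤ max ((1 - c) ^ (n + 1) * Pe p B) (η * Pe p A) * E := by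
              refine mul_nonneg (le_max_of_le_right ?_) hE0
              positivity
            linarith
          · refine le_trans ?_ (ih _ (fun ω hω => hB ω hω.1) h0)
            have h14 : (1 - c) ^ n * Pe p (fun ω => B ω ∧ ¬ B' ω) ≤ (1 - c) ^ (n + 1) * Pe p B := by
              have h15 : (0 : ℝ) ≤ (1 - c) ^ n := pow_nonneg (by linarith) _
              refine (mul_le_mul_of_nonneg_left h8 h15).trans (le_of_eq ?_)
              ring
            have h16 : max ((1 - c) ^ n * Pe p (fun ω => B ω ∧ ¬ B' ω)) (η * Pe p A) * E ≤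
                max ((1 - c) ^ (n + 1) * Pe p B) (η * Pe p A) * E :=
              mul_le_mul_of_nonneg_right (max_le_max h14 le_rfl) hE0
            linarith
        have h19 : Pe p B * E = Pe p B' * E + Pe p (fun ω => B ω ∧ ¬ B' ω) * E := by
          rw [← add_mul, ← h7]
        linarith
  obtain ⟨n, hn⟩ := exists_pow_lt_of_lt_one hη (show 1 - c < 1 by linarith)
  have h1 := key n A (fun ω h => h) hA
  have h2 : max ((1 - c) ^ n * Pe p A) (η * Pe p A) = η * Pe p A :=
    max_eq_right (mul_le_mul_of_nonneg_right hn.le hA.le)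
  rw [h2] at h1
  have h3 : Pe p A * ((1 - η) * E) ≤ Pe p A * CH (Pool.Agent.H49.Ent.cond p A True) X Y := by
    refine le_trans (le_of_eq ?_) h1
    ring
  exact le_of_mul_le_mul_left h3 hA

/-- An event from the whole space. -/
theorem CH_low_of_event {p : Ω → ℝ} (hp : IsLaw p) (A : Ω → Prop) (X : Ω → S) (Y : Ω → T) :
    Pe p A * CH (Pool.Agent.H49.Ent.cond p A True) X Y ≤ CH p X Y :=
  Piece.law_CH_le hp.nonneg X Y A True

/-- The entropy of a sub-law from below. -/
theorem CH_cond_low {p : Ω → ℝ} (hp : IsLaw p) {A : Ω → Prop} (hA : 0 < Pe p A) (X : Ω → S)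
    (Y : Ω → T) {Lf th : ℝ} (h1 : Lf - th ≤ CH p X Y)
    (h2 : ∀ Q : Ω → ℝ, IsLaw Q → (∀ ω, 0 < Q ω → 0 < p ω) → CH Q X Y ≤ Lf + th) (hth : 0 ≤ th) :
    Lf - (2 * th + Real.log 2) / Pe p A ≤ CH (Pool.Agent.H49.Ent.cond p A True) X Y := by
  classical
  have hU : Pe p (fun _ => True) = 1 := Pe_univ hp
  have hc : Pool.Agent.H49.Ent.cond p (fun _ => True) True = p := by
    funext ω
    unfold Pool.Agent.H49.Ent.cond
    have : law p (fun _ : Ω => True) True = 1 := hU
    rw [if_pos rfl, this, div_one]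
  have hsub : Sub A (fun _ => True) := fun _ _ => trivial
  have h3 := Pool.OVN.CH_split hp hsub (by rw [hU]; exact one_pos) X Y
  rw [hU, hc, one_mul, one_mul] at h3
  have h4 := Pe_split (p := p) hsub
  rw [hU] at h4
  obtain ⟨N, hN⟩ : ∃ N : Ω → Prop, N = fun ω => True ∧ ¬ A ω := ⟨_, rfl⟩
  rw [← hN] at h3 h4
  have h5 : Pe p N * CH (Pool.Agent.H49.Ent.cond p N True) X Y ≤ Pe p N * (Lf + th) := by
    rcases (Pe_nonneg hp N).eq_or_lt with h0 | h0
    · rw [← h0, zero_mul, zero_mul]
    · refine mul_le_mul_of_nonneg_left (h2 _ (isLaw_cond hp h0) fun ω hω => ?_) h0.le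
      unfold Pool.Agent.H49.Ent.cond at hω
      split_ifs at hω with h6
      · by_contra hcon
        have : p ω = 0 := le_antisymm (not_lt.1 hcon) (hp.nonneg ω)
        rw [this, zero_div] at hω
        exact lt_irrefl _ hω
      · exact absurd hω (lt_irrefl _)
  have h7 : Lf - th ≤ Real.log 2 + Pe p A * CH (Pool.Agent.H49.Ent.cond p A True) X Y +
      (1 - Pe p A) * (Lf + th) := by
    have e : Pe p N = 1 - Pe p A := by linarith
    rw [← e]
    linarith
  have h8 : 0 ≤ Pe p A * th := mul_nonneg hA.le hth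
  rw [sub_le_iff_le_add, ← sub_le_iff_le_add', le_div_iff₀ hA]
  nlinarith

end Pool.LF65
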