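import Pool.Agent.H65.LEAF.Stage
import Pool.Agent.H15.KM7.Pair
import Pool.Agent.H35.K2S.Dich

/-!
# Uniqueness of leaves

If the position `D` is full given the own leaf `A`, and the height `N` has not all its digits given
the position, then with positive probability the leaf is, up to `2 ^ (-s)`, a function of the exact
point `rho`.
-/

set_option autoImplicit false

namespace Pool.LF65

open Finset Real
open Pool.Agent.H49.Ent Pool.Agent.H32.Dense Pool.STK Pool.KA Pool.KSAT Pool.K2S Pool.KM7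
open Pool.JMN (ev shf tdg)
open Pool.BFL (Pb)

/-- **Two leaves over the same position and height** agree with positive probability, if both make
the position full and the height has not all its digits given the position. -/
theorem two (k K : ℕ) {η : ℝ} (hη : 0 < η) : ∃ κ : ℝ, 0 < κ ∧ ∃ X₀ : ℕ,
    ∀ {Ω α β τ δ : Type} [Fintype Ω] {q : Ω → ℝ}, IsLaw q →
    ∀ (X s h : ℕ) (A : Ω → α) (B : Ω → β) (W : Ω → τ) (D : Ω → δ) (y : Ω → Fin k → ℝ)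
    (N : Ω → ℝ) (a b : Ω → (Fin k → Fin (K + 1)) → ℝ) (th Lf : ℝ), X₀ ≤ X →
    (s : ℝ) ≤ κ * X → (h : ℝ) ≤ κ * X → 0 ≤ th → th ≤ κ * X →
    (∀ ω i, 0 ≤ y ω i) → (∀ ω i, y ω i < 1) →
    Det q (fun ω => (A ω, W ω)) a → Det q (fun ω => (B ω, W ω)) b →
    Det q (fun ω => (D ω, W ω)) y →
    (∀ ω, 0 < q ω → ∀ al, |a ω al| ≤ 2 ^ h) → (∀ ω, 0 < q ω → ∀ al, |b ω al| ≤ 2 ^ h) →
    (∀ ω, 0 < q ω → |N ω - ev (a ω) (y ω)| ≤ 2 ^ h / 2 ^ X) →
    (∀ ω, 0 < q ω → |N ω - ev (b ω) (y ω)| ≤ 2 ^ h / 2 ^ X) →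
    (∀ Q : Ω → ℝ, IsLaw Q → (∀ ω, 0 < Q ω → 0 < q ω) → ∀ d : Fin k → ℕ, (∀ l, d l ≤ X) →
      CH Q D (fun ω => (W ω, fun l => ⌊(2 : ℝ) ^ d l * y ω l⌋)) ≤
        Lf - (∑ l, (d l : ℝ)) * Real.log 2 + th) →
    Lf - th ≤ CH q D (fun ω => (A ω, W ω)) → Lf - th ≤ CH q D (fun ω => (B ω, W ω)) →
    CH q (fun ω => ⌊(2 : ℝ) ^ X * N ω⌋) (fun ω => (D ω, W ω)) ≤ (1 - η) * (X * Real.log 2) →
    η / 2 ≤ Pe q (fun ω => ∀ al, |a ω al - b ω al| ≤ 1 / 2 ^ s) := by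
  classical
  by_cases hη1 : η ≤ 1
  swap
  · refine ⟨1, one_pos, 1, ?_⟩
    intro Ω α β τ δ _ q hq X s h A B W D y N a b th Lf hX _ _ _ _ _ _ _ _ _ _ _ _ _ _ _ _ hN
    exfalso
    have h1 := CH_nonneg hq.nonneg (fun ω => ⌊(2 : ℝ) ^ X * N ω⌋) (fun ω => (D ω, W ω))
    have h2 : (0 : ℝ) < X * Real.log 2 :=
      mul_pos (by exact_mod_cast hX) (Real.log_pos (by norm_num))
    push Not at hη1
    nlinarith
  obtain ⟨c₀, hc₀, hc₁, hst⟩ := stage k K (ε := η / 8) (by positivity)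
  obtain ⟨κ, hκ, X₀, hst⟩ := hst (η / 8 * (1 / 2)) (by positivity)
  refine ⟨κ, hκ, max X₀ 1, ?_⟩
  intro Ω α β τ δ _ q hq X s h A B W D y N a b th Lf hX hs hh hth0 hth y0 y1 da db dy hab hbb
    hna hnb hU hA hB hN
  have hX0 : X₀ ≤ X := (le_max_left _ _).trans hX
  have hX1 : 1 ≤ X := (le_max_right _ _).trans hX
  by_contra hcon
  push Not at hcon
  obtain ⟨F, hF⟩ : ∃ F : Ω → Prop, F = fun ω => True ∧
    ¬ ∀ al, |a ω al - b ω al| ≤ 1 / 2 ^ s := ⟨_, rfl⟩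
  have hPF : 1 - η / 2 < Pe q F := by
    have h1 := Pe_split (p := q) (B := fun _ => True)
      (B' := fun ω => ∀ al, |a ω al - b ω al| ≤ 1 / 2 ^ s) (fun _ _ => trivial)
    rw [Pe_univ hq, ← hF] at h1
    linarith
  have hPF2 : 1 / 2 < Pe q F := by linarith
  have hPF0 : 0 < Pe q F := by linarith
  have ht : (0 : ℝ) < X * Real.log 2 :=
    mul_pos (by exact_mod_cast hX1) (Real.log_pos (by norm_num))
  have hex := CH_exhaust_low hq hPF0 (fun ω => ⌊(2 : ℝ) ^ X * N ω⌋) (fun ω => (D ω, W ω))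
    (c := c₀) (η := η / 8) (E := (1 - η / 8) * (X * Real.log 2)) hc₀ hc₁ (by positivity)
    (mul_nonneg (by linarith) ht.le) (fun C hC hPC => by
      refine hst hq X s h A B W D y N a b th Lf hX0 hs hh hth0 hth y0 y1 da db dy hab hbb hna hnb
        hU hA hB C (fun ω hω _ => ?_) ?_
      · have h1 := hC ω hω
        rw [hF] at h1
        have h2 := h1.2
        push Not at h2
        exact h2
      · have h1 : η / 8 * (1 / 2) ≤ η / 8 * Pe q F :=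
          mul_le_mul_of_nonneg_left hPF2.le (by positivity)
        exact h1.trans hPC)
  have h1 := CH_low_of_event hq F (fun ω => ⌊(2 : ℝ) ^ X * N ω⌋) (fun ω => (D ω, W ω))
  have h2 : (1 - η / 2) * ((1 - η / 8) * ((1 - η / 8) * (X * Real.log 2))) ≤
      (1 - η) * (X * Real.log 2) := by
    refine le_trans ?_ (h1.trans hN)
    refine mul_le_mul hPF.le hex ?_ hPF0.le
    have : 0 ≤ 1 - η / 8 := by linarith
    positivity
  have h3 : (1 - η) < (1 - η / 2) * ((1 - η / 8) * (1 - η / 8)) := by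
    have g1 : (1 - η / 2) * ((1 - η / 8) * (1 - η / 8)) =
        (1 - η) + η / 4 + 9 / 64 * η ^ 2 - η ^ 3 / 128 := by ring
    have g2 : η ^ 3 ≤ η ^ 2 := by
      rw [pow_succ]
      exact mul_le_of_le_one_right (by positivity) hη1
    have g3 : 0 ≤ η ^ 2 := by positivity
    rw [g1]
    linarith
  have h4 := mul_lt_mul_of_pos_right h3 ht
  have h5 : (1 - η / 2) * ((1 - η / 8) * (1 - η / 8)) * (X * Real.log 2) =
      (1 - η / 2) * ((1 - η / 8) * ((1 - η / 8) * (X * Real.log 2))) := by ring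
  linarith

/-- The law of the projection. -/
theorem isLaw_law {E Ω : Type} [Fintype E] [Fintype Ω] {Q : E → ℝ} (hQ : IsLaw Q) (pr : E → Ω) :
    IsLaw (fun ω => law Q pr ω) := by
  have hP : Psh Q pr (fun ω => law Q pr ω) := fun _ => rfl
  refine ⟨fun ω => law_nonneg hQ.nonneg pr ω, ?_⟩
  have h1 := hP.Ex_eq (fun _ => (1 : ℝ))
  rw [Ex_const hQ.sum_one] at h1
  unfold Ex at h1
  simp only [mul_one] at h1
  exact h1.symm

theorem law_pos_ex {E Ω : Type} [Fintype E] {Q : E → ℝ} (hQ : IsLaw Q) (pr : E → Ω) {ω : Ω}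
    (h : 0 < law Q pr ω) : ∃ e, pr e = ω ∧ 0 < Q e := by
  classical
  by_contra hcon
  push Not at hcon
  have : law Q pr ω ≤ 0 := by
    unfold law
    refine Finset.sum_nonpos fun e _ => ?_
    split_ifs with h1
    · exact hcon e h1
    · exact le_rfl
  linarith

/-- **Uniqueness of leaves.** -/
theorem leaf_pe (k K : ℕ) {η : ℝ} (hη : 0 < η) : ∃ κ : ℝ, 0 < κ ∧ ∃ X₀ : ℕ,
    ∀ {Ω Ρ α τ δ : Type} [Fintype Ω] {p : Ω → ℝ}, IsLaw p →
    ∀ (X s h : ℕ) (rho : Ω → Ρ) (A : Ω → α) (W : Ω → τ) (D : Ω → δ) (y : Ω → Fin k → ℝ)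
    (N : Ω → ℝ) (a : Ω → (Fin k → Fin (K + 1)) → ℝ) (th Lf : ℝ), X₀ ≤ X →
    (s : ℝ) ≤ κ * X → (h : ℝ) ≤ κ * X → 0 ≤ th → th ≤ κ * X →
    (∀ ω i, 0 ≤ y ω i) → (∀ ω i, y ω i < 1) →
    Det p (fun ω => (A ω, W ω)) a → Det p rho W → Det p rho D → Det p rho N →
    Det p (fun ω => (D ω, W ω)) y →
    (∀ ω, 0 < p ω → ∀ al, |a ω al| ≤ 2 ^ h) →
    (∀ ω, 0 < p ω → |N ω - ev (a ω) (y ω)| ≤ 2 ^ h / 2 ^ X) →
    (∀ Q : Ω → ℝ, IsLaw Q → (∀ ω, 0 < Q ω → 0 < p ω) → ∀ d : Fin k → ℕ, (∀ l, d l ≤ X) →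
      CH Q D (fun ω => (W ω, fun l => ⌊(2 : ℝ) ^ d l * y ω l⌋)) ≤
        Lf - (∑ l, (d l : ℝ)) * Real.log 2 + th) →
    Lf - th ≤ CH p D (fun ω => (A ω, W ω)) →
    CH p (fun ω => ⌊(2 : ℝ) ^ X * N ω⌋) (fun ω => (D ω, W ω)) ≤ (1 - η) * (X * Real.log 2) →
    ∃ U : Ρ → (Fin k → Fin (K + 1)) → ℝ,
      η / 2 ≤ Pe p (fun ω => ∀ al, |a ω al - U (rho ω) al| ≤ 1 / 2 ^ s) := by
  classical
  obtain ⟨κ, hκ, X₀, htwo⟩ := two k K hη
  refine ⟨κ, hκ, X₀, ?_⟩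
  intro Ω Ρ α τ δ _ p hp X s h rho A W D y N a th Lf hX hs hh hth0 hth y0 y1 da dW dD dN dy hab
    hna hU hA hN
  have hql := P2_isLaw hp rho
  have hfst := P2_fst hp rho
  have hsnd := P2_snd hp rho
  have hpos := P2_pos hp (g := rho)
  have eW : ∀ e : Ω × Ω, 0 < P2 p rho e → W e.1 = W e.2 := fun e he =>
    dW _ _ ((hpos e).1 he).1 ((hpos e).1 he).2.1 ((hpos e).1 he).2.2
  have eD : ∀ e : Ω × Ω, 0 < P2 p rho e → D e.1 = D e.2 := fun e he =>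
    dD _ _ ((hpos e).1 he).1 ((hpos e).1 he).2.1 ((hpos e).1 he).2.2
  have eN : ∀ e : Ω × Ω, 0 < P2 p rho e → N e.1 = N e.2 := fun e he =>
    dN _ _ ((hpos e).1 he).1 ((hpos e).1 he).2.1 ((hpos e).1 he).2.2
  have ey : ∀ e : Ω × Ω, 0 < P2 p rho e → y e.1 = y e.2 := fun e he =>
    dy _ _ ((hpos e).1 he).1 ((hpos e).1 he).2.1 (Prod.ext (eD e he) (eW e he))
  have hfin := htwo hql X s h (fun e => A e.1) (fun e => A e.2) (fun e => W e.1) (fun e => D e.1)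
    (fun e => y e.1) (fun e => N e.1) (fun e => a e.1) (fun e => a e.2) th Lf hX hs hh hth0 hth
    (fun e => y0 e.1) (fun e => y1 e.1)
    (fun e e' h1 h2 h3 => da _ _ ((hpos e).1 h1).1 ((hpos e').1 h2).1 h3)
    (fun e e' h1 h2 h3 => da _ _ ((hpos e).1 h1).2.1 ((hpos e').1 h2).2.1 (by
      have h4 := Prod.ext_iff.1 h3
      refine Prod.ext h4.1 ?_
      show W e.2 = W e'.2
      rw [← eW e h1, ← eW e' h2]
      exact h4.2))
    (fun e e' h1 h2 h3 => dy _ _ ((hpos e).1 h1).1 ((hpos e').1 h2).1 h3)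
    (fun e he => hab _ ((hpos e).1 he).1) (fun e he => hab _ ((hpos e).1 he).2.1)
    (fun e he => hna _ ((hpos e).1 he).1)
    (fun e he => by
      have h1 := hna _ ((hpos e).1 he).2.1
      rw [eN e he, ey e he]
      exact h1)
    (fun Q hQ hQq d hd => by
      have hP : Psh Q Prod.fst (fun ω => law Q Prod.fst ω) := fun _ => rfl
      rw [hP.CH_eq D (fun ω => (W ω, fun l => ⌊(2 : ℝ) ^ d l * y ω l⌋))]
      refine hU _ (isLaw_law hQ _) (fun ω hω => ?_) d hd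
      obtain ⟨e, rfl, he⟩ := law_pos_ex hQ Prod.fst hω
      exact ((hpos e).1 (hQq e he)).1)
    (by
      rw [hfst.CH_eq D (fun ω => (A ω, W ω))]
      exact hA)
    (by
      have h1 : CH (P2 p rho) (fun e => D e.1) (fun e => (A e.2, W e.1)) =
          CH (P2 p rho) (fun e => D e.2) (fun e => (A e.2, W e.2)) := by
        refine CH_congr hql.nonneg (fun e e' h1 h2 h3 => ?_) (fun e e' h1 h2 h3 => ?_)
          (fun e e' h1 h2 h3 => ?_) (fun e e' h1 h2 h3 => ?_)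
        · have h4 := Prod.ext_iff.1 h3
          show D e.2 = D e'.2
          rw [← eD e h1, ← eD e' h2]
          exact h4.1
        · have h4 := Prod.ext_iff.1 h3
          show D e.1 = D e'.1
          rw [eD e h1, eD e' h2]
          exact h4.1
        · have h4 := Prod.ext_iff.1 h3
          refine Prod.ext h4.1 ?_
          show W e.2 = W e'.2
          rw [← eW e h1, ← eW e' h2]
          exact h4.2
        · have h4 := Prod.ext_iff.1 h3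
          refine Prod.ext h4.1 ?_
          show W e.1 = W e'.1
          rw [eW e h1, eW e' h2]
          exact h4.2
      rw [h1, hsnd.CH_eq D (fun ω => (A ω, W ω))]
      exact hA)
    (by
      rw [hfst.CH_eq (fun ω => ⌊(2 : ℝ) ^ X * N ω⌋) (fun ω => (D ω, W ω))]
      exact hN)
  have hne : Nonempty ((Fin k → Fin (K + 1)) → ℝ) := ⟨fun _ => 0⟩
  have hcpy : cpy p rho = P2 p rho := rfl
  rw [← hcpy] at hfin
  exact exists_fn_of_cpy hp a rho (fun x x' => ∀ al, |x al - x' al| ≤ 1 / 2 ^ s) hfin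

/-- **Uniqueness of leaves**, in the notation of `Pb`. -/
theorem leaf (k K : ℕ) {η : ℝ} (hη : 0 < η) : ∃ κ : ℝ, 0 < κ ∧ ∃ X₀ : ℕ,
    ∀ {Ω Ρ α τ δ : Type} [Fintype Ω] {p : Ω → ℝ}, IsLaw p →
    ∀ (X s h : ℕ) (rho : Ω → Ρ) (A : Ω → α) (W : Ω → τ) (D : Ω → δ) (y : Ω → Fin k → ℝ)
    (N : Ω → ℝ) (a : Ω → (Fin k → Fin (K + 1)) → ℝ) (th Lf : ℝ), X₀ ≤ X →
    (s : ℝ) ≤ κ * X → (h : ℝ) ≤ κ * X → 0 ≤ th → th ≤ κ * X →
    (∀ ω i, 0 ≤ y ω i) → (∀ ω i, y ω i < 1) →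
    Det p (fun ω => (A ω, W ω)) a → Det p rho W → Det p rho D → Det p rho N →
    Det p (fun ω => (D ω, W ω)) y →
    (∀ ω, 0 < p ω → ∀ al, |a ω al| ≤ 2 ^ h) →
    (∀ ω, 0 < p ω → |N ω - ev (a ω) (y ω)| ≤ 2 ^ h / 2 ^ X) →
    (∀ Q : Ω → ℝ, IsLaw Q → (∀ ω, 0 < Q ω → 0 < p ω) → ∀ d : Fin k → ℕ, (∀ l, d l ≤ X) →
      CH Q D (fun ω => (W ω, fun l => ⌊(2 : ℝ) ^ d l * y ω l⌋)) ≤
        Lf - (∑ l, (d l : ℝ)) * Real.log 2 + th) →
    Lf - th ≤ CH p D (fun ω => (A ω, W ω)) →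
    CH p (fun ω => ⌊(2 : ℝ) ^ X * N ω⌋) (fun ω => (D ω, W ω)) ≤ (1 - η) * (X * Real.log 2) →
    ∃ U : Ρ → (Fin k → Fin (K + 1)) → ℝ,
      η / 2 ≤ Pb p (fun ω => ∀ al, |a ω al - U (rho ω) al| ≤ 1 / 2 ^ s) := by
  obtain ⟨κ, hκ, X₀, hl⟩ := leaf_pe k K hη
  refine ⟨κ, hκ, X₀, ?_⟩
  intro Ω Ρ α τ δ _ p hp X s h rho A W D y N a th Lf hX hs hh hth0 hth y0 y1 da dW dD dN dy hab
    hna hU hA hN
  obtain ⟨U, hU⟩ := hl hp X s h rho A W D y N a th Lf hX hs hh hth0 hth y0 y1 da dW dD dN dy hab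
    hna hU hA hN
  exact ⟨U, by rw [Pb_eq]; exact hU⟩

/-- The count of the digits of the position given the first digits. -/
theorem dig_count {Ω τ : Type} [Fintype Ω] {k : ℕ} {Q : Ω → ℝ} (hQ : IsLaw Q) (X : ℕ)
    (y : Ω → Fin k → ℝ) (W : Ω → τ) (d : Fin k → ℕ) (hd : ∀ l, d l ≤ X) :
    CH Q (fun ω l => ⌊(2 : ℝ) ^ X * y ω l⌋) (fun ω => (W ω, fun l => ⌊(2 : ℝ) ^ d l * y ω l⌋)) ≤
      k * (X * Real.log 2) - (∑ l, (d l : ℝ)) * Real.log 2 := by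
  classical
  have h1 := CH_le_card hQ.nonneg hQ.sum_one (fun ω l => ⌊(2 : ℝ) ^ X * y ω l⌋)
    (fun ω => (W ω, fun l => ⌊(2 : ℝ) ^ d l * y ω l⌋))
    (fun w => Fintype.piFinset fun l => Finset.Ico (w.2 l * 2 ^ (X - d l))
      (w.2 l * 2 ^ (X - d l) + 2 ^ (X - d l))) (fun ω _ => by
      rw [Fintype.mem_piFinset]
      intro l
      rw [Finset.mem_Ico]
      have e1 : (2 : ℝ) ^ X * y ω l = 2 ^ (X - d l) * (2 ^ d l * y ω l) := by
        rw [← mul_assoc, ← pow_add, Nat.sub_add_cancel (hd l)]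
      have e2 := Int.floor_le ((2 : ℝ) ^ d l * y ω l)
      have e3 := Int.lt_floor_add_one ((2 : ℝ) ^ d l * y ω l)
      have e4 : (0 : ℝ) < 2 ^ (X - d l) := by positivity
      constructor
      · rw [Int.le_floor, e1]
        push_cast
        rw [mul_comm]
        exact mul_le_mul_of_nonneg_left e2 e4.le
      · rw [Int.floor_lt, e1]
        push_cast
        have := mul_lt_mul_of_pos_left e3 e4
        linarith)
  refine h1.trans (le_of_eq ?_)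
  have e : ∀ ω, Real.log ((Fintype.piFinset fun l : Fin k => Finset.Ico
      (⌊(2 : ℝ) ^ d l * y ω l⌋ * 2 ^ (X - d l))
      (⌊(2 : ℝ) ^ d l * y ω l⌋ * 2 ^ (X - d l) + 2 ^ (X - d l))).card) =
      k * (X * Real.log 2) - (∑ l, (d l : ℝ)) * Real.log 2 := by
    intro ω
    rw [Fintype.card_piFinset]
    have e1 : ∀ l : Fin k, (Finset.Ico (⌊(2 : ℝ) ^ d l * y ω l⌋ * 2 ^ (X - d l))
        (⌊(2 : ℝ) ^ d l * y ω l⌋ * 2 ^ (X - d l) + 2 ^ (X - d l))).card = 2 ^ (X - d l) := by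
      intro l
      rw [Int.card_Ico, add_sub_cancel_left]
      norm_cast
    rw [Finset.prod_congr rfl fun l _ => e1 l]
    push_cast
    rw [Real.log_prod (fun l _ => by positivity)]
    have e2 : ∀ l : Fin k, Real.log ((2 : ℝ) ^ (X - d l)) =
        X * Real.log 2 - d l * Real.log 2 := by
      intro l
      rw [Real.log_pow, Nat.cast_sub (hd l), sub_mul]
    rw [Finset.sum_congr rfl fun l _ => e2 l, Finset.sum_sub_distrib, Finset.sum_const,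
      Finset.card_univ, Fintype.card_fin, nsmul_eq_mul, ← Finset.sum_mul]
  have e' : (fun ω => Real.log ((Fintype.piFinset fun l : Fin k => Finset.Ico
      (⌊(2 : ℝ) ^ d l * y ω l⌋ * 2 ^ (X - d l))
      (⌊(2 : ℝ) ^ d l * y ω l⌋ * 2 ^ (X - d l) + 2 ^ (X - d l))).card)) =
      fun _ => k * (X * Real.log 2) - (∑ l, (d l : ℝ)) * Real.log 2 := funext e
  show Ex Q (fun ω => Real.log ((Fintype.piFinset fun l : Fin k => Finset.Ico
      (⌊(2 : ℝ) ^ d l * y ω l⌋ * 2 ^ (X - d l))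
      (⌊(2 : ℝ) ^ d l * y ω l⌋ * 2 ^ (X - d l) + 2 ^ (X - d l))).card)) = _
  rw [e']
  exact Ex_const hQ.sum_one _

/-- **Uniqueness of leaves**, the position and the height to `X` digits. -/
theorem leaf_y (k K : ℕ) {η : ℝ} (hη : 0 < η) : ∃ κ : ℝ, 0 < κ ∧ ∃ X₀ : ℕ,
    ∀ {Ω Ρ α τ : Type} [Fintype Ω] {p : Ω → ℝ}, IsLaw p →
    ∀ (X s h : ℕ) (rho : Ω → Ρ) (A : Ω → α) (W : Ω → τ) (y : Ω → Fin k → ℝ)
    (N : Ω → ℝ) (a : Ω → (Fin k → Fin (K + 1)) → ℝ) (th : ℝ), X₀ ≤ X →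
    (s : ℝ) ≤ κ * X → (h : ℝ) ≤ κ * X → 0 ≤ th → th ≤ κ * X →
    (∀ ω i, 0 ≤ y ω i) → (∀ ω i, y ω i < 1) →
    Det p (fun ω => (A ω, W ω)) a → Det p rho W →
    Det p rho (fun ω l => ⌊(2 : ℝ) ^ X * y ω l⌋) → Det p rho (fun ω => ⌊(2 : ℝ) ^ X * N ω⌋) →
    (∀ ω, 0 < p ω → ∀ al, |a ω al| ≤ 2 ^ h) →
    (∀ ω, 0 < p ω → |N ω - ev (a ω) (y ω)| ≤ 2 ^ h / 2 ^ X) →
    k * (X * Real.log 2) - th ≤ CH p (fun ω l => ⌊(2 : ℝ) ^ X * y ω l⌋) (fun ω => (A ω, W ω)) →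
    CH p (fun ω => ⌊(2 : ℝ) ^ X * N ω⌋) (fun ω => ((fun l => ⌊(2 : ℝ) ^ X * y ω l⌋), W ω)) ≤
      (1 - η) * (X * Real.log 2) →
    ∃ U : Ρ → (Fin k → Fin (K + 1)) → ℝ,
      η / 2 ≤ Pe p (fun ω => ∀ al, |a ω al - U (rho ω) al| ≤ 1 / 2 ^ s) := by
  classical
  obtain ⟨κ, hκ, X₀, hl⟩ := leaf_pe k K hη
  obtain ⟨cG, hcG⟩ := ev_grad k K
  obtain ⟨X₁, hX₁⟩ := exists_nat_ge (2 * ((cG : ℝ) + k + 2) / κ)
  refine ⟨κ / 2, by positivity, max X₀ X₁, ?_⟩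
  intro Ω Ρ α τ _ p hp X s h rho A W y N a th hX hs hh hth0 hth y0 y1 da dW dD dN hab hna hA hN
  have hXa : X₀ ≤ X := (le_max_left _ _).trans hX
  have hXb : (X₁ : ℝ) ≤ X := by exact_mod_cast (le_max_right _ _).trans hX
  have hXc : 2 * ((cG : ℝ) + k + 2) ≤ κ * X := by
    have h1 := hX₁.trans hXb
    rw [div_le_iff₀ hκ] at h1
    linarith
  have hκX : 0 ≤ κ * X := by positivity
  have hP : (0 : ℝ) < 2 ^ X := by positivity
  obtain ⟨y', hy'⟩ : ∃ y' : Ω → Fin k → ℝ, y' = fun ω l =>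
    ((⌊(2 : ℝ) ^ X * y ω l⌋ : ℤ) : ℝ) / 2 ^ X := ⟨_, rfl⟩
  obtain ⟨N', hN'⟩ : ∃ N' : Ω → ℝ, N' = fun ω =>
    ((⌊(2 : ℝ) ^ X * N ω⌋ : ℤ) : ℝ) / 2 ^ X := ⟨_, rfl⟩
  have ry : ∀ t : ℝ, 0 ≤ t - ⌊(2 : ℝ) ^ X * t⌋ / 2 ^ X ∧ t - ⌊(2 : ℝ) ^ X * t⌋ / 2 ^ X ≤ 1 / 2 ^ X := by
    intro t
    have e1 := Int.floor_le ((2 : ℝ) ^ X * t)
    have e2 := (Int.lt_floor_add_one ((2 : ℝ) ^ X * t)).le
    constructor
    · rw [sub_nonneg, div_le_iff₀ hP]
      linarith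
    · rw [sub_le_iff_le_add, ← add_div, le_div_iff₀ hP]
      linarith
  have hd : ∀ (n : ℕ), n ≤ X → ∀ t : ℝ, ⌊(2 : ℝ) ^ n * (⌊(2 : ℝ) ^ X * t⌋ / 2 ^ X)⌋ =
      ⌊(2 : ℝ) ^ n * t⌋ := by
    intro n hn t
    refine Pool.R1.fl_nest hn ?_
    rw [mul_div_cancel₀ _ hP.ne', Int.floor_intCast]
  have ynn : ∀ ω l, 0 ≤ y' ω l := by
    intro ω l
    rw [hy']
    refine div_nonneg ?_ hP.le
    exact_mod_cast Int.floor_nonneg.2 (mul_nonneg hP.le (y0 ω l))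
  have ylt : ∀ ω l, y' ω l < 1 := by
    intro ω l
    rw [hy']
    have := (ry (y ω l)).1
    have := y1 ω l
    show (⌊(2 : ℝ) ^ X * y ω l⌋ : ℝ) / 2 ^ X < 1
    linarith
  obtain ⟨U, hU⟩ := hl hp X s (h + cG + k + 2) rho A W (fun ω l => ⌊(2 : ℝ) ^ X * y ω l⌋) y' N' a
    th (k * (X * Real.log 2)) hXa (by linarith)
    (by
      push_cast
      linarith)
    hth0 (by linarith) ynn ylt da dW dD
    (fun ω ω' h1 h2 h3 => by
      have := dN ω ω' h1 h2 h3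
      rw [hN']
      show (⌊(2 : ℝ) ^ X * N ω⌋ : ℝ) / 2 ^ X = ⌊(2 : ℝ) ^ X * N ω'⌋ / 2 ^ X
      have e : ⌊(2 : ℝ) ^ X * N ω⌋ = ⌊(2 : ℝ) ^ X * N ω'⌋ := this
      rw [e])
    (fun ω ω' h1 h2 h3 => by
      have e := (Prod.ext_iff.1 h3).1
      rw [hy']
      funext l
      have e' : ⌊(2 : ℝ) ^ X * y ω l⌋ = ⌊(2 : ℝ) ^ X * y ω' l⌋ := congrFun e l
      show (⌊(2 : ℝ) ^ X * y ω l⌋ : ℝ) / 2 ^ X = ⌊(2 : ℝ) ^ X * y ω' l⌋ / 2 ^ X
      rw [e'])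
    (fun ω hω al => (hab ω hω al).trans (pow_le_pow_right₀ (by norm_num) (by omega)))
    (fun ω hω => by
      have e1 := hna ω hω
      have e2 := hcG (a ω) h (hab ω hω) (y ω) (y' ω) (fun l => by
        rw [abs_of_nonneg (y0 ω l)]
        linarith [y1 ω l]) (fun l => by
        rw [abs_of_nonneg (ynn ω l)]
        linarith [ylt ω l])
      have e3 : ∑ l, |y ω l - y' ω l| ≤ k * (1 / 2 ^ X) := by
        calc ∑ l, |y ω l - y' ω l| ≤ ∑ _l : Fin k, (1 : ℝ) / 2 ^ X := by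
              refine Finset.sum_le_sum fun l _ => ?_
              rw [hy']
              have := ry (y ω l)
              show |y ω l - ⌊(2 : ℝ) ^ X * y ω l⌋ / 2 ^ X| ≤ _
              rw [abs_of_nonneg this.1]
              exact this.2
          _ = _ := by rw [Finset.sum_const, Finset.card_univ, Fintype.card_fin, nsmul_eq_mul]
      have e4 : |N' ω - N ω| ≤ 1 / 2 ^ X := by
        rw [hN', abs_sub_comm]
        have := ry (N ω)
        show |N ω - ⌊(2 : ℝ) ^ X * N ω⌋ / 2 ^ X| ≤ _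
        rw [abs_of_nonneg this.1]
        exact this.2
      have e5 : |N' ω - ev (a ω) (y' ω)| ≤ 1 / 2 ^ X + 2 ^ h / 2 ^ X +
          2 ^ (h + cG) * (k * (1 / 2 ^ X)) := by
        have e6 : N' ω - ev (a ω) (y' ω) = (N' ω - N ω) + (N ω - ev (a ω) (y ω)) +
            (ev (a ω) (y ω) - ev (a ω) (y' ω)) := by ring
        rw [e6]
        refine (abs_add_three _ _ _).trans ?_
        have e7 := e2.trans (mul_le_mul_of_nonneg_left e3 (by positivity))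
        linarith
      refine e5.trans ?_
      have e8 : (1 : ℝ) ≤ 2 ^ (h + cG) := one_le_pow₀ (by norm_num)
      have e9 : (2 : ℝ) ^ h ≤ 2 ^ (h + cG) := pow_le_pow_right₀ (by norm_num) (by omega)
      have e10 := Pool.R1.pow_le_sum k
      have e11 : (2 : ℝ) ^ (h + cG + k + 2) = 2 ^ (h + cG) * 2 ^ (k + 2) := by
        rw [← pow_add]
        congr 1
      have e12 : 1 / (2 : ℝ) ^ X + 2 ^ h / 2 ^ X + 2 ^ (h + cG) * (k * (1 / 2 ^ X)) =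
          (1 + 2 ^ h + 2 ^ (h + cG) * k) / 2 ^ X := by ring
      rw [e12, e11]
      refine div_le_div_of_nonneg_right ?_ hP.le
      have e13 : (2 : ℝ) ^ (h + cG) * (2 * k + 2) ≤ 2 ^ (h + cG) * 2 ^ (k + 2) :=
        mul_le_mul_of_nonneg_left e10 (by positivity)
      have e14 : (0 : ℝ) ≤ 2 ^ (h + cG) * k := by positivity
      linarith)
    (fun Q hQ _ d hd' => by
      have e : ∀ ω, (fun l => ⌊(2 : ℝ) ^ d l * y' ω l⌋) = fun l => ⌊(2 : ℝ) ^ d l * y ω l⌋ := by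
        intro ω
        rw [hy']
        funext l
        exact hd _ (hd' l) _
      simp only [e]
      exact (dig_count hQ X y W d hd').trans (by linarith))
    hA
    (by
      have e : ∀ ω, ⌊(2 : ℝ) ^ X * N' ω⌋ = ⌊(2 : ℝ) ^ X * N ω⌋ := by
        intro ω
        rw [hN']
        exact hd _ le_rfl _
      simp only [e]
      exact hN)
  exact ⟨U, hU⟩

end Pool.LF65
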