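import Mathlib

/-!
# Uniqueness of leaves: the choice of the numbers
-/

set_option autoImplicit false

namespace Pool.LF65

open Real

theorem nums (R cc : ℕ) {C1 C2 ε : ℝ} (hC1 : 0 ≤ C1) (hC2 : 0 ≤ C2) (hε : 0 < ε) :
    ∃ m m₂ : ℕ, R + 4 ≤ m ∧ 1 ≤ m₂ ∧ ∀ e : ℝ, 0 < e → ∃ κ : ℝ, 0 < κ ∧ ∃ X₀ : ℕ,
    ∀ (X s h : ℕ) (th : ℝ), X₀ ≤ X → (s : ℝ) ≤ κ * X → (h : ℝ) ≤ κ * X → 0 ≤ th → th ≤ κ * X →
    cc ≤ X / m₂ ∧ 1 ≤ X / m ∧ s + h + cc + 2 * (X / m₂) ≤ X / m ∧ th ≤ ((X / m₂ : ℕ) : ℝ) ∧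
    (R + 1) * X < (X / m₂) * (2 * m₂ * (R + 1)) ∧
    (1 - ε) * (X * Real.log 2) + (C1 * (((m : ℝ) + 1) * ((2 * th + Real.log 2) / e) +
      ((X / m : ℕ) : ℝ)) + C2 * (((m : ℝ) + 1) * (1 + ((X / m₂ : ℕ) : ℝ)))) ≤
      (((m : ℝ) - (2 * R + 3)) * ((X / m : ℕ) : ℝ)) * Real.log 2 := by
  have hl : 0 < Real.log 2 := Real.log_pos (by norm_num)
  have hl1 : Real.log 2 ≤ 1 := by
    have := Real.log_two_lt_d9
    linarith
  obtain ⟨δ, hδ⟩ : ∃ δ, δ = ε * Real.log 2 := ⟨_, rfl⟩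
  have hδ0 : 0 < δ := by rw [hδ]; positivity
  obtain ⟨m, hm⟩ := exists_nat_ge (5 * (2 * R + 3 + C1) / δ + R + 4)
  have hm4 : R + 4 ≤ m := by
    have h1 : 0 ≤ 5 * (2 * R + 3 + C1) / δ := by positivity
    have h2 : ((R + 4 : ℕ) : ℝ) ≤ m := by
      push_cast
      linarith
    exact_mod_cast h2
  have hm0 : (0 : ℝ) < m := by
    have : 0 < m := by omega
    exact_mod_cast this
  have hma : 5 * (2 * R + 3 + C1) ≤ δ * m := by
    have h1 : 5 * (2 * R + 3 + C1) / δ ≤ m := by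
      have : (0 : ℝ) ≤ R := Nat.cast_nonneg R
      linarith
    rw [div_le_iff₀ hδ0] at h1
    linarith
  obtain ⟨m₂, hm₂⟩ := exists_nat_ge (5 * C2 * (m + 1) / δ + 8 * m)
  have hm₂8 : (8 * m : ℝ) ≤ m₂ := by
    have h1 : 0 ≤ 5 * C2 * (m + 1) / δ := by positivity
    linarith
  have hm₂a : 5 * C2 * (m + 1) ≤ δ * m₂ := by
    have h1 : 5 * C2 * (m + 1) / δ ≤ m₂ := by linarith
    rw [div_le_iff₀ hδ0] at h1
    linarith
  have hm₂0 : (0 : ℝ) < m₂ := by linarith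
  have hm₂1 : 1 ≤ m₂ := by
    have : 0 < m₂ := by exact_mod_cast hm₂0
    omega
  refine ⟨m, m₂, hm4, hm₂1, fun e he => ?_⟩
  obtain ⟨κ, hκ⟩ : ∃ κ : ℝ, κ = min (1 / (8 * (m : ℝ))) (min (1 / (2 * (m₂ : ℝ)))
    (δ * e / (20 * (C1 + 1) * ((m : ℝ) + 1)))) := ⟨_, rfl⟩
  have hκ0 : 0 < κ := by
    rw [hκ]
    refine lt_min (by positivity) (lt_min (by positivity) (by positivity))
  have hκ1 : κ ≤ 1 / (8 * (m : ℝ)) := by rw [hκ]; exact min_le_left _ _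
  have hκ2 : κ ≤ 1 / (2 * (m₂ : ℝ)) := by rw [hκ]; exact (min_le_right _ _).trans (min_le_left _ _)
  have hκ3 : κ ≤ δ * e / (20 * (C1 + 1) * ((m : ℝ) + 1)) := by
    rw [hκ]
    exact (min_le_right _ _).trans (min_le_right _ _)
  obtain ⟨X₀, hX₀⟩ := exists_nat_ge (2 * m * (cc + 1) + m₂ * (cc + 2) +
    10 * (C1 + 1) * (m + 1) / (e * δ) + 5 * (m + C2 * (m + 1)) / δ + 1)
  refine ⟨κ, hκ0, X₀, fun X s h th hX hs hh hth0 hth => ?_⟩
  have hXr : (X₀ : ℝ) ≤ X := by exact_mod_cast hX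
  have t1 : 0 ≤ 2 * (m : ℝ) * (cc + 1) := by positivity
  have t2 : 0 ≤ (m₂ : ℝ) * (cc + 2) := by positivity
  have t3 : 0 ≤ 10 * (C1 + 1) * ((m : ℝ) + 1) / (e * δ) := by positivity
  have t4 : 0 ≤ 5 * ((m : ℝ) + C2 * (m + 1)) / δ := by positivity
  have x1 : 2 * (m : ℝ) * (cc + 1) ≤ X := by linarith
  have x2 : (m₂ : ℝ) * (cc + 2) ≤ X := by linarith
  have x3 : 10 * (C1 + 1) * ((m : ℝ) + 1) ≤ e * δ * X := by
    have h1 : 10 * (C1 + 1) * ((m : ℝ) + 1) / (e * δ) ≤ X := by linarith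
    rw [div_le_iff₀ (by positivity)] at h1
    linarith
  have x4 : 5 * ((m : ℝ) + C2 * (m + 1)) ≤ δ * X := by
    have h1 : 5 * ((m : ℝ) + C2 * (m + 1)) / δ ≤ X := by linarith
    rw [div_le_iff₀ hδ0] at h1
    linarith
  have x5 : (0 : ℝ) < X := by linarith
  -- the quotients
  obtain ⟨Y, hY⟩ : ∃ Y, Y = X / m := ⟨_, rfl⟩
  obtain ⟨Z, hZ⟩ : ∃ Z, Z = X / m₂ := ⟨_, rfl⟩
  have y1 : m * Y ≤ X := by rw [hY]; exact Nat.mul_div_le X m
  have y2 : X < m * Y + m := by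
    rw [hY]
    have h1 := Nat.div_add_mod X m
    have h2 := Nat.mod_lt X (show 0 < m by omega)
    omega
  have z1 : m₂ * Z ≤ X := by rw [hZ]; exact Nat.mul_div_le X m₂
  have z2 : X < m₂ * Z + m₂ := by
    rw [hZ]
    have h1 := Nat.div_add_mod X m₂
    have h2 := Nat.mod_lt X (show 0 < m₂ by omega)
    omega
  have y1r : (m : ℝ) * Y ≤ X := by exact_mod_cast y1
  have y2r : (X : ℝ) < m * Y + m := by exact_mod_cast y2
  have z1r : (m₂ : ℝ) * Z ≤ X := by exact_mod_cast z1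
  have z2r : (X : ℝ) < m₂ * Z + m₂ := by exact_mod_cast z2
  have yu : (Y : ℝ) ≤ X / m := by rw [le_div_iff₀ hm0]; linarith
  have zu : (Z : ℝ) ≤ X / m₂ := by rw [le_div_iff₀ hm₂0]; linarith
  have yl : X / m - 1 < (Y : ℝ) := by
    rw [sub_lt_iff_lt_add, div_lt_iff₀ hm0]
    linarith
  have zl : X / m₂ - 1 < (Z : ℝ) := by
    rw [sub_lt_iff_lt_add, div_lt_iff₀ hm₂0]
    linarith
  rw [← hY, ← hZ]
  have k1 : κ * X ≤ X / (8 * m) := by
    have := mul_le_mul_of_nonneg_right hκ1 x5.le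
    rwa [one_div_mul_eq_div] at this
  have k2 : κ * X ≤ X / (2 * m₂) := by
    have := mul_le_mul_of_nonneg_right hκ2 x5.le
    rwa [one_div_mul_eq_div] at this
  have q1 : (X : ℝ) / (8 * m) = X / m / 8 := by rw [mul_comm, div_div]
  have q2 : (X : ℝ) / (2 * m₂) = X / m₂ / 2 := by rw [mul_comm, div_div]
  have q3 : (X : ℝ) / m₂ ≤ X / m / 8 := by
    rw [div_div, mul_comm (m : ℝ)]
    exact div_le_div_of_nonneg_left x5.le (by positivity) hm₂8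
  have q4 : 2 * ((cc : ℝ) + 1) ≤ X / m := by rw [le_div_iff₀ hm0]; linarith
  have q5 : ((cc : ℝ) + 2) ≤ X / m₂ := by rw [le_div_iff₀ hm₂0]; linarith
  have hcc : (0 : ℝ) ≤ cc := Nat.cast_nonneg cc
  rw [q1] at k1
  rw [q2] at k2
  have g1 : cc ≤ Z := by
    have h1 : (cc : ℝ) < Z + 1 := by linarith
    have h2 : cc < Z + 1 := by exact_mod_cast h1
    omega
  have g2 : 1 ≤ Y := by
    have h1 : (1 : ℝ) ≤ Y := by linarith
    exact_mod_cast h1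
  have g3 : s + h + cc + 2 * Z ≤ Y := by
    have h1 : (s : ℝ) + h + cc + 2 * Z < Y + 1 := by linarith
    have h2 : s + h + cc + 2 * Z < Y + 1 := by exact_mod_cast h1
    omega
  have g4 : th ≤ (Z : ℝ) := by linarith
  have g5 : (R + 1) * X < Z * (2 * m₂ * (R + 1)) := by
    have e1 : Z * (2 * m₂ * (R + 1)) = (R + 1) * (2 * (m₂ * Z)) := by ring
    rw [e1]
    refine Nat.mul_lt_mul_of_pos_left ?_ (Nat.succ_pos R)
    have h1 : (2 * m₂ : ℝ) ≤ X := by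
      have : (0 : ℝ) ≤ m₂ * cc := by positivity
      nlinarith
    have h2 : 2 * m₂ ≤ X := by exact_mod_cast h1
    omega
  refine ⟨g1, g2, g3, g4, g5, ?_⟩
  -- the errors
  have hY0 : (0 : ℝ) ≤ Y := Nat.cast_nonneg Y
  have hR0 : (0 : ℝ) ≤ R := Nat.cast_nonneg R
  -- (a)
  have a1 : (2 * R + 3 + C1) * Y ≤ δ * X / 5 := by
    have h1 : (2 * R + 3 + C1) * Y ≤ δ * m / 5 * Y :=
      mul_le_mul_of_nonneg_right (by linarith) hY0
    have h2 : δ * m / 5 * Y = δ / 5 * (m * Y) := by ring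
    have h3 : δ / 5 * (m * Y) ≤ δ / 5 * X := mul_le_mul_of_nonneg_left y1r (by positivity)
    linarith
  -- (b)
  have b1 : C2 * (m + 1) * Z ≤ δ * X / 5 := by
    have h1 : C2 * (m + 1) * Z ≤ δ * m₂ / 5 * Z :=
      mul_le_mul_of_nonneg_right (by linarith) (Nat.cast_nonneg Z)
    have h2 : δ * m₂ / 5 * Z = δ / 5 * (m₂ * Z) := by ring
    have h3 : δ / 5 * (m₂ * Z) ≤ δ / 5 * X := mul_le_mul_of_nonneg_left z1r (by positivity)
    linarith
  -- (c)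
  have c1 : C1 * ((m + 1) * ((2 * th + Real.log 2) / e)) ≤ δ * X / 5 := by
    have h1 : κ * (20 * (C1 + 1) * (m + 1)) ≤ δ * e := by
      rwa [le_div_iff₀ (by positivity)] at hκ3
    have h2 : (C1 + 1) * (m + 1) * th ≤ δ * e * X / 20 := by
      have h3 : (C1 + 1) * (m + 1) * th ≤ (C1 + 1) * (m + 1) * (κ * X) :=
        mul_le_mul_of_nonneg_left hth (by positivity)
      have h4 := mul_le_mul_of_nonneg_right h1 x5.le
      have h5 : κ * (20 * (C1 + 1) * (m + 1)) * X = 20 * ((C1 + 1) * (m + 1) * (κ * X)) := by ring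
      linarith
    have h6 : (C1 + 1) * (m + 1) * (2 * th + Real.log 2) ≤ e * (δ * X / 5) := by
      have h7 : (C1 + 1) * (m + 1) * Real.log 2 ≤ (C1 + 1) * (m + 1) * 1 :=
        mul_le_mul_of_nonneg_left hl1 (by positivity)
      have h8 : (C1 + 1) * (m + 1) * (2 * th + Real.log 2) =
          2 * ((C1 + 1) * (m + 1) * th) + (C1 + 1) * (m + 1) * Real.log 2 := by ring
      have h9 : e * (δ * X / 5) = δ * e * X / 10 + e * δ * X / 10 := by ring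
      rw [h8, h9]
      have h10 : (C1 + 1) * ((m : ℝ) + 1) ≤ e * δ * X / 10 := by linarith
      linarith
    have h11 : C1 * ((m + 1) * ((2 * th + Real.log 2) / e)) =
        C1 * (m + 1) * (2 * th + Real.log 2) / e := by ring
    rw [h11, div_le_iff₀ he]
    have h12 : C1 * (m + 1) * (2 * th + Real.log 2) ≤
        (C1 + 1) * (m + 1) * (2 * th + Real.log 2) := by
      have : 0 ≤ ((m : ℝ) + 1) * (2 * th + Real.log 2) := by positivity
      nlinarith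
    linarith
  -- (d)
  have d1 : (m : ℝ) + C2 * (m + 1) ≤ δ * X / 5 := by linarith
  -- sum
  have f1 : (((m : ℝ) - (2 * R + 3)) * Y) * Real.log 2 =
      (m * Y) * Real.log 2 - ((2 * R + 3) * Y) * Real.log 2 := by ring
  have f2 : (X - m : ℝ) * Real.log 2 ≤ (m * Y) * Real.log 2 :=
    mul_le_mul_of_nonneg_right (by linarith) hl.le
  have f3 : ((2 * R + 3) * Y) * Real.log 2 ≤ (2 * R + 3) * Y :=
    mul_le_of_le_one_right (by positivity) hl1
  have f4 : (m : ℝ) * Real.log 2 ≤ m := mul_le_of_le_one_right hm0.le hl1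
  have f5 : (1 - ε) * (X * Real.log 2) = X * Real.log 2 - δ * X := by
    rw [hδ]
    ring
  have f6 : C1 * (((m : ℝ) + 1) * ((2 * th + Real.log 2) / e) + Y) =
      C1 * ((m + 1) * ((2 * th + Real.log 2) / e)) + C1 * Y := by ring
  have f7 : C2 * (((m : ℝ) + 1) * (1 + Z)) = C2 * (m + 1) + C2 * (m + 1) * Z := by ring
  rw [f1, f5, f6, f7]
  have f8 : (X - m : ℝ) * Real.log 2 = X * Real.log 2 - m * Real.log 2 := by ring
  have f9 : (2 * R + 3 + C1) * (Y : ℝ) = (2 * R + 3) * Y + C1 * Y := by ring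
  have f10 : 0 ≤ δ * X := by positivity
  linarith

end Pool.LF65
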