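import Pool.Agent.H81.JM.Arr

/-!
# Uniqueness of leaves: bounds for polynomials on boxes
-/

set_option autoImplicit false

namespace Pool.LF65

open Finset Real
open Pool.JMN (ev shf tdg)

variable {k K : ℕ}

theorem pow_lip {u v : ℝ} (hu : |u| ≤ 2) (hv : |v| ≤ 2) (n : ℕ) :
    |u ^ n - v ^ n| ≤ n * 2 ^ n * |u - v| := by
  induction n with
  | zero => simp
  | succ n ih =>
    have e : u ^ (n + 1) - v ^ (n + 1) = u * (u ^ n - v ^ n) + (u - v) * v ^ n := by ring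
    rw [e]
    refine (abs_add_le _ _).trans ?_
    rw [abs_mul, abs_mul, abs_pow]
    have h1 : |u| * |u ^ n - v ^ n| ≤ 2 * (n * 2 ^ n * |u - v|) :=
      mul_le_mul hu ih (abs_nonneg _) (by norm_num)
    have h2 : |v| ^ n ≤ 2 ^ n := pow_le_pow_left₀ (abs_nonneg _) hv n
    have h3 : |u - v| * |v| ^ n ≤ |u - v| * 2 ^ n := mul_le_mul_of_nonneg_left h2 (abs_nonneg _)
    have h4 : 0 ≤ |u - v| * 2 ^ n := by positivity
    push_cast
    rw [pow_succ]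
    nlinarith

theorem pow_lip' {u v : ℝ} (hu : |u| ≤ 2) (hv : |v| ≤ 2) {n K : ℕ} (hn : n ≤ K) :
    |u ^ n - v ^ n| ≤ K * 2 ^ K * |u - v| := by
  refine (pow_lip hu hv n).trans (mul_le_mul_of_nonneg_right ?_ (abs_nonneg _))
  have h1 : (n : ℝ) ≤ K := by exact_mod_cast hn
  exact mul_le_mul h1 (pow_le_pow_right₀ (by norm_num) hn) (by positivity) (by positivity)

theorem prod_lip {ι : Type} (s : Finset ι) (f g : ι → ℝ) {B : ℝ} (hB : 1 ≤ B)
    (hf : ∀ i ∈ s, |f i| ≤ B) (hg : ∀ i ∈ s, |g i| ≤ B) :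
    |∏ i ∈ s, f i - ∏ i ∈ s, g i| ≤ B ^ s.card * ∑ i ∈ s, |f i - g i| := by
  classical
  induction s using Finset.induction_on with
  | empty => simp
  | insert i s hi ih =>
    rw [Finset.prod_insert hi, Finset.prod_insert hi, Finset.sum_insert hi,
      Finset.card_insert_of_notMem hi]
    have e : f i * ∏ i ∈ s, f i - g i * ∏ i ∈ s, g i =
        g i * (∏ i ∈ s, f i - ∏ i ∈ s, g i) + (f i - g i) * ∏ i ∈ s, f i := by ring
    rw [e]
    refine (abs_add_le _ _).trans ?_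
    rw [abs_mul, abs_mul]
    have h1 := ih (fun j hj => hf j (Finset.mem_insert_of_mem hj))
      (fun j hj => hg j (Finset.mem_insert_of_mem hj))
    have h2 : |g i| * |∏ i ∈ s, f i - ∏ i ∈ s, g i| ≤ B * (B ^ s.card * ∑ i ∈ s, |f i - g i|) :=
      mul_le_mul (hg i (Finset.mem_insert_self _ _)) h1 (abs_nonneg _) (by linarith)
    have h3 : |∏ i ∈ s, f i| ≤ B ^ (s.card + 1) := by
      rw [Finset.abs_prod]
      refine (Finset.prod_le_prod (fun _ _ => abs_nonneg _)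
        (fun j hj => hf j (Finset.mem_insert_of_mem hj))).trans ?_
      rw [Finset.prod_const]
      exact pow_le_pow_right₀ hB (Nat.le_succ _)
    have h4 : |f i - g i| * |∏ i ∈ s, f i| ≤ |f i - g i| * B ^ (s.card + 1) :=
      mul_le_mul_of_nonneg_left h3 (abs_nonneg _)
    rw [pow_succ] at h4 ⊢
    nlinarith

/-- The gradient of a polynomial with bounded coefficients. -/
theorem ev_grad (k K : ℕ) : ∃ c : ℕ, ∀ (q : (Fin k → Fin (K + 1)) → ℝ) (h : ℕ),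
    (∀ a, |q a| ≤ 2 ^ h) → ∀ z z' : Fin k → ℝ, (∀ l, |z l| ≤ 2) → (∀ l, |z' l| ≤ 2) →
    |ev q z - ev q z'| ≤ 2 ^ (h + c) * ∑ l, |z l - z' l| := by
  obtain ⟨C, hC⟩ : ∃ C : ℝ, C = (Fintype.card (Fin k → Fin (K + 1))) *
    ((2 ^ K) ^ k * (K * 2 ^ K)) := ⟨_, rfl⟩
  obtain ⟨c, hc⟩ := pow_unbounded_of_one_lt C (by norm_num : (1 : ℝ) < 2)
  refine ⟨c, fun q h hq z z' hz hz' => ?_⟩
  have hS : 0 ≤ ∑ l, |z l - z' l| := Finset.sum_nonneg fun _ _ => abs_nonneg _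
  have h1 : ∀ a : Fin k → Fin (K + 1),
      |q a * ∏ i, z i ^ (a i : ℕ) - q a * ∏ i, z' i ^ (a i : ℕ)| ≤
        2 ^ h * ((2 ^ K) ^ k * ((K * 2 ^ K) * ∑ l, |z l - z' l|)) := by
    intro a
    rw [← mul_sub, abs_mul]
    refine mul_le_mul (hq a) ?_ (abs_nonneg _) (by positivity)
    have hb : ∀ w : Fin k → ℝ, (∀ l, |w l| ≤ 2) → ∀ i ∈ (Finset.univ : Finset (Fin k)),
        |w i ^ (a i : ℕ)| ≤ 2 ^ K := by
      intro w hw i _
      rw [abs_pow]
      refine (pow_le_pow_left₀ (abs_nonneg _) (hw i) _).trans ?_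
      exact pow_le_pow_right₀ (by norm_num) (Nat.lt_succ_iff.mp (a i).isLt)
    have h2 := prod_lip (Finset.univ : Finset (Fin k)) (fun i => z i ^ (a i : ℕ))
      (fun i => z' i ^ (a i : ℕ)) (B := 2 ^ K) (one_le_pow₀ (by norm_num)) (hb z hz) (hb z' hz')
    rw [Finset.card_univ, Fintype.card_fin] at h2
    refine h2.trans (mul_le_mul_of_nonneg_left ?_ (by positivity))
    rw [Finset.mul_sum]
    exact Finset.sum_le_sum fun l _ => pow_lip' (hz l) (hz' l) (Nat.lt_succ_iff.mp (a l).isLt)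
  unfold ev
  rw [← Finset.sum_sub_distrib]
  refine (Finset.abs_sum_le_sum_abs _ _).trans ((Finset.sum_le_sum fun a _ => h1 a).trans ?_)
  rw [Finset.sum_const, Finset.card_univ, nsmul_eq_mul]
  have h3 : (Fintype.card (Fin k → Fin (K + 1)) : ℝ) *
      (2 ^ h * ((2 ^ K) ^ k * ((K * 2 ^ K) * ∑ l, |z l - z' l|))) =
      2 ^ h * C * ∑ l, |z l - z' l| := by
    rw [hC]
    ring
  rw [h3, pow_add]
  exact mul_le_mul_of_nonneg_right (mul_le_mul_of_nonneg_left hc.le (by positivity)) hS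

/-- Doubling: from a small box to the unit box. -/
theorem ev_dbl (k K : ℕ) : ∃ c : ℕ, ∀ (q : (Fin k → Fin (K + 1)) → ℝ) (X : ℕ) (z : Fin k → ℝ)
    (s : ℝ), 0 ≤ s → (∀ l, 0 ≤ z l ∧ z l ≤ 1) →
    (∀ x : Fin k → ℝ, (∀ l, z l ≤ x l ∧ x l ≤ z l + 1 / 2 ^ X) → |ev q x| ≤ s) →
    ∀ x : Fin k → ℝ, (∀ l, 0 ≤ x l ∧ x l ≤ 1) → |ev q x| ≤ 2 ^ (k * K * X + c) * s := by
  obtain ⟨C, hC1, hC⟩ := Pool.JMN.coef_le k K
  obtain ⟨c, hc⟩ := pow_unbounded_of_one_lt (((K : ℝ) + 1) ^ k * C) (by norm_num : (1 : ℝ) < 2)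
  refine ⟨c, fun q X z s hs hz hq x hx => ?_⟩
  have h1 := hC (shf z q) (1 / 2 ^ X) s (by positivity) (fun w hw => by
    rw [Pool.JMN.ev_shf]
    refine hq _ fun l => ⟨?_, ?_⟩
    · linarith [(hw l).1]
    · linarith [(hw l).2])
  have h2 : ∀ a, |shf z q a| * (1 : ℝ) ^ tdg a ≤ C * s * 2 ^ (k * K * X) := by
    intro a
    rw [one_pow, mul_one]
    have h3 := h1 a
    have h4 : (1 / (2 : ℝ) ^ X) ^ tdg a = 1 / 2 ^ (tdg a * X) := by
      rw [div_pow, one_pow, ← pow_mul, mul_comm X]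
    rw [h4, mul_one_div, div_le_iff₀ (by positivity)] at h3
    refine h3.trans (mul_le_mul_of_nonneg_left ?_ (by positivity))
    exact pow_le_pow_right₀ (by norm_num) (Nat.mul_le_mul_right X (Pool.JMN.tdg_le a))
  have h5 := Pool.JMN.ev_le h2 (x := fun l => x l - z l) (fun l => by
    rw [abs_le]
    constructor <;> linarith [(hx l).1, (hx l).2, (hz l).1, (hz l).2])
  rw [Pool.JMN.ev_shf] at h5
  have h6 : (fun l => z l + (x l - z l)) = x := by
    funext l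
    ring
  rw [h6] at h5
  refine h5.trans ?_
  rw [pow_add]
  have h7 : ((K : ℝ) + 1) ^ k * (C * s * 2 ^ (k * K * X)) =
      2 ^ (k * K * X) * (((K : ℝ) + 1) ^ k * C) * s := by ring
  rw [h7]
  exact mul_le_mul_of_nonneg_right (mul_le_mul_of_nonneg_left hc.le (by positivity)) hs

/-- A large coefficient gives a large value in the unit box. -/
theorem ev_big (k K : ℕ) : ∃ c : ℕ, ∀ (q : (Fin k → Fin (K + 1)) → ℝ) (s : ℕ),
    (∃ a, 1 / 2 ^ s < |q a|) →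
    ∃ x : Fin k → ℝ, (∀ l, 0 ≤ x l ∧ x l ≤ 1) ∧ 1 / 2 ^ (s + c) ≤ |ev q x| := by
  obtain ⟨C, hC1, hC⟩ := Pool.JMN.coef_le k K
  obtain ⟨c, hc⟩ := pow_unbounded_of_one_lt C (by norm_num : (1 : ℝ) < 2)
  refine ⟨c, fun q s ⟨a, ha⟩ => ?_⟩
  by_contra hcon
  push Not at hcon
  have h1 := hC q 1 (1 / 2 ^ (s + c)) one_pos (fun x hx => (hcon x hx).le) a
  rw [one_pow, mul_one] at h1
  have h2 : C * (1 / 2 ^ (s + c)) ≤ 1 / 2 ^ s := by
    have h3 : (1 : ℝ) / 2 ^ s = 2 ^ c * (1 / 2 ^ (s + c)) := by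
      rw [pow_add]
      field_simp
    rw [h3]
    exact mul_le_mul_of_nonneg_right hc.le (by positivity)
  linarith

end Pool.LF65
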