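import Pool.Agent.H65.LEAF.Pol
import Pool.Agent.H65.LEAF.Low
import Pool.Agent.H65.LEAF.Num
import Pool.Agent.H96.R1.Cor

/-!
# Uniqueness of leaves: the digits of the height on an event where two leaves differ
-/

set_option autoImplicit false

namespace Pool.LF65

open Finset Real
open Pool.Agent.H49.Ent Pool.Agent.H32.Dense Pool.STK Pool.KA Pool.KSAT Pool.K2S
open Pool.JMN (ev shf tdg)
open Pool.JMP (InC)
open Pool.BFL (Pb)

theorem Pb_eq {Ω : Type} [Fintype Ω] (p : Ω → ℝ) (A : Ω → Prop) : Pb p A = Pe p A := by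
  classical
  rw [Pe_eq]
  unfold Pb
  exact Finset.sum_congr rfl fun ω _ => by congr

theorem fl_resc {n X G : ℕ} (h : n ≤ X + G) {x x' : ℝ}
    (hx : ⌊(2 : ℝ) ^ X * x⌋ = ⌊(2 : ℝ) ^ X * x'⌋) :
    ⌊(2 : ℝ) ^ n * (x / 2 ^ G)⌋ = ⌊(2 : ℝ) ^ n * (x' / 2 ^ G)⌋ := by
  refine Pool.R1.fl_nest h ?_
  have e : ∀ t : ℝ, (2 : ℝ) ^ (X + G) * (t / 2 ^ G) = 2 ^ X * t := by
    intro t
    rw [pow_add]
    field_simp
  rw [e, e, hx]

/-- The box of a point lies over its corner, which is in the unit box. -/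
theorem crn_unit {Ω : Type} {k : ℕ} (X : ℕ) {y : Ω → Fin k → ℝ} (y0 : ∀ ω i, 0 ≤ y ω i)
    (y1 : ∀ ω i, y ω i < 1) (s : ℕ) (ω : Ω) (l : Fin k) :
    0 ≤ Pool.XBG.crn X s (Pool.XBG.cel X y s ω) l ∧
      Pool.XBG.crn X s (Pool.XBG.cel X y s ω) l ≤ 1 := by
  unfold Pool.XBG.crn Pool.XBG.cel
  have hp : (0 : ℝ) < 2 ^ (s * X) := by positivity
  have h1 : (0 : ℤ) ≤ ⌊(2 : ℝ) ^ (s * X) * y ω l⌋ := Int.floor_nonneg.2 (mul_nonneg hp.le (y0 ω l))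
  have h2 : (⌊(2 : ℝ) ^ (s * X) * y ω l⌋ : ℝ) ≤ 2 ^ (s * X) * y ω l := Int.floor_le _
  have h3 : (2 : ℝ) ^ (s * X) * y ω l ≤ 2 ^ (s * X) * 1 :=
    mul_le_mul_of_nonneg_left (y1 ω l).le hp.le
  refine ⟨div_nonneg (by exact_mod_cast h1) hp.le, ?_⟩
  rw [div_le_one hp]
  linarith

/-- **The digits of the height** on a part of an event on which two leaves differ. -/
theorem stage (k K : ℕ) {ε : ℝ} (hε : 0 < ε) : ∃ c₀ : ℝ, 0 < c₀ ∧ c₀ ≤ 1 ∧ ∀ e₀ : ℝ, 0 < e₀ →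
    ∃ κ : ℝ, 0 < κ ∧ ∃ X₀ : ℕ, ∀ {Ω α β τ δ : Type} [Fintype Ω] {q : Ω → ℝ}, IsLaw q →
    ∀ (X s h : ℕ) (A : Ω → α) (B : Ω → β) (W : Ω → τ) (D : Ω → δ) (y : Ω → Fin k → ℝ)
    (N : Ω → ℝ) (a b : Ω → (Fin k → Fin (K + 1)) → ℝ) (th Lf : ℝ), X₀ ≤ X →
    (s : ℝ) ≤ κ * X → (h : ℝ) ≤ κ * X → 0 ≤ th → th ≤ κ * X →
    (∀ ω i, 0 ≤ y ω i) → (∀ ω i, y ω i < 1) →
    Det q (fun ω => (A ω, W ω)) a → Det q (fun ω => (B ω, W ω)) b →
    Det q (fun ω => (D ω, W ω)) y →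
    (∀ ω, 0 < q ω → ∀ al, |a ω al| ≤ 2 ^ h) → (∀ ω, 0 < q ω → ∀ al, |b ω al| ≤ 2 ^ h) →
    (∀ ω, 0 < q ω → |N ω - ev (a ω) (y ω)| ≤ 2 ^ h / 2 ^ X) →
    (∀ ω, 0 < q ω → |N ω - ev (b ω) (y ω)| ≤ 2 ^ h / 2 ^ X) →
    (∀ Q : Ω → ℝ, IsLaw Q → (∀ ω, 0 < Q ω → 0 < q ω) → ∀ d : Fin k → ℕ, (∀ l, d l ≤ X) →
      CH Q D (fun ω => (W ω, fun l => ⌊(2 : ℝ) ^ d l * y ω l⌋)) ≤
        Lf - (∑ l, (d l : ℝ)) * Real.log 2 + th) →
    Lf - th ≤ CH q D (fun ω => (A ω, W ω)) → Lf - th ≤ CH q D (fun ω => (B ω, W ω)) →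
    ∀ F : Ω → Prop, (∀ ω, F ω → 0 < q ω → ∃ al, 1 / 2 ^ s < |a ω al - b ω al|) → e₀ ≤ Pe q F →
    ∃ E : Ω → Prop, Sub E F ∧ c₀ * Pe q F ≤ Pe q E ∧
      (1 - ε) * (X * Real.log 2) ≤
        CH (Pool.Agent.H49.Ent.cond q E True) (fun ω => ⌊(2 : ℝ) ^ X * N ω⌋)
          (fun ω => (D ω, W ω)) := by
  classical
  obtain ⟨R, hR⟩ : ∃ R, R = k * K := ⟨_, rfl⟩
  obtain ⟨C1, hC1, hcore⟩ := Pool.R1.core_g k R
  obtain ⟨c, C2, hC2, hcore⟩ := hcore K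
  obtain ⟨cG, hcG⟩ := ev_grad k K
  obtain ⟨cu, hcu⟩ := ev_dbl k K
  obtain ⟨cs, hcs⟩ := ev_big k K
  obtain ⟨m, m₂, hm, hm₂, hnum⟩ := nums R (cs + cG + cu + 2 * c + 2) hC1 hC2 hε
  obtain ⟨P, hP⟩ : ∃ P, P = 2 * m₂ * (R + 1) := ⟨_, rfl⟩
  have hP1 : (1 : ℝ) ≤ ((P : ℝ) + 1) ^ (R + 1) := one_le_pow₀ (by
    have : (0 : ℝ) ≤ P := Nat.cast_nonneg P
    linarith)
  have hP0 : (0 : ℝ) < ((P : ℝ) + 1) ^ (R + 1) := by linarith
  refine ⟨1 / ((P : ℝ) + 1) ^ (R + 1), by positivity, by rw [div_le_one hP0]; exact hP1,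
    fun e₀ he₀ => ?_⟩
  obtain ⟨e, he⟩ : ∃ e, e = 1 / ((P : ℝ) + 1) ^ (R + 1) * e₀ := ⟨_, rfl⟩
  have he0 : 0 < e := by rw [he]; positivity
  obtain ⟨κ, hκ, X₀, hX₀⟩ := hnum e he0
  refine ⟨κ, hκ, X₀, ?_⟩
  intro Ω α β τ δ _ q hq X s h A B W D y N a b th Lf hX hs hh hth0 hth y0 y1 da db dy hab hbb
    hna hnb hU hA hB F hF hPF
  obtain ⟨n1, n2, n3, n4, n5, n6⟩ := hX₀ X s h th hX hs hh hth0 hth
  obtain ⟨Y, hY⟩ : ∃ Y, Y = X / m := ⟨_, rfl⟩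
  obtain ⟨Z, hZ⟩ : ∃ Z, Z = X / m₂ := ⟨_, rfl⟩
  rw [← hY, ← hZ] at n6
  rw [← hZ] at n1 n4 n5
  rw [← hY] at n2
  rw [← hY, ← hZ] at n3
  have hmY : m * Y ≤ X := by rw [hY]; exact Nat.mul_div_le X m
  have hYX : Y ≤ X := (Nat.le_mul_of_pos_left Y (by omega)).trans hmY
  have hRY : (R + 4) * Y ≤ m * Y := Nat.mul_le_mul_right Y hm
  have eR1 : (R + 4) * Y = R * Y + 4 * Y := by ring
  have eR2 : (R + 1) * Y = R * Y + Y := by ring
  have hJd : ∀ n : ℕ, n / Y * Y ≤ n := fun n => Nat.div_mul_le_self n Y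
  have hPbF : 0 < Pb q F := by rw [Pb_eq]; linarith
  obtain ⟨n₁, n₂, M, E, e1, e2, e3, e4, e5, e6, e7, e8, e9, e10⟩ := hcore q Y m Z P (s + cs)
    (X - h) (m * Y) (h + cG) (R * Y + cu) 0 (m * Y - ((R + 1) * Y + Z + c)) (fun _ => 0) y N a b F
    (by omega) n2 (by omega) le_rfl
    (by
      have g1 : k * K * (m * Y) ≤ R * X := by rw [← hR]; exact Nat.mul_le_mul_left R hmY
      have g2 : (R + 1) * X = R * X + X := by ring
      have g3 : Z * P = Z * (2 * m₂ * (R + 1)) := by rw [hP]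
      omega)
    (by omega) (Nat.zero_le _) (by omega) (by omega) (by omega) y0 y1
    (fun ω hω hqω => by
      have g1 : (2 : ℝ) ^ h / 2 ^ X = 1 / 2 ^ (X - h) := by
        rw [div_eq_div_iff (by positivity) (by positivity), one_mul, ← pow_add]
        congr 1
        omega
      rw [← g1]
      exact hna ω hqω)
    (fun ω hω hqω => by
      have g1 : (2 : ℝ) ^ h / 2 ^ X = 1 / 2 ^ (X - h) := by
        rw [div_eq_div_iff (by positivity) (by positivity), one_mul, ← pow_add]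
        congr 1
        omega
      rw [← g1]
      exact hnb ω hqω)
    (fun ω hω hqω z z' hz hz' => by
      refine (hcG (a ω) h (hab ω hqω) z z' hz hz').trans (le_of_eq ?_)
      congr 1
      exact Finset.sum_congr rfl fun l _ => by rw [pow_zero, div_one])
    (fun ω hω hqω z z' hz hz' => by
      refine (hcG (b ω) h (hbb ω hqω) z z' hz hz').trans (le_of_eq ?_)
      congr 1
      exact Finset.sum_congr rfl fun l _ => by rw [pow_zero, div_one])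
    (fun ω hω hqω t ht hbx x hx => by
      have g1 := hcu (fun α => a ω α - b ω α) Y (Pool.XBG.crn Y 1 (Pool.XBG.cel Y y 1 ω)) t ht
        (fun l => crn_unit Y y0 y1 1 ω l) (fun x hx => hbx x (fun l => by
          have := hx l
          rw [one_mul]
          exact this)) x hx
      rw [hR]
      refine g1.trans ?_
      have : (0 : ℝ) ≤ 1 / 2 ^ (X - h) := by positivity
      linarith)
    (fun ω hω hqω => hcs _ s (hF ω hω hqω))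
    hPbF
  rw [Pb_eq] at e2 hPbF
  rw [Pb_eq, Pb_eq, ← hR] at e3
  have hcE : 1 / ((P : ℝ) + 1) ^ (R + 1) * Pe q F ≤ Pe q E := by
    rw [one_div_mul_eq_div, div_le_iff₀ hP0]
    linarith
  refine ⟨E, e1, hcE, ?_⟩
  have heE : e ≤ Pe q E := by
    rw [he]
    exact (mul_le_mul_of_nonneg_left hPF (by positivity)).trans hcE
  obtain ⟨Q, hQ⟩ : ∃ Q, Q = Pool.Agent.H49.Ent.cond q E True := ⟨_, rfl⟩
  have hQl : IsLaw Q := by rw [hQ]; exact isLaw_cond hq e2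
  have hQq : ∀ ω, 0 < Q ω → E ω ∧ 0 < q ω := by
    intro ω hω
    rw [hQ] at hω
    unfold Pool.Agent.H49.Ent.cond at hω
    split_ifs at hω with h6
    · refine ⟨of_eq_true h6, ?_⟩
      by_contra hcon
      have : q ω = 0 := le_antisymm (not_lt.1 hcon) (hq.nonneg ω)
      rw [this, zero_div] at hω
      exact lt_irrefl _ hω
    · exact absurd hω (lt_irrefl _)
  rw [← hQ]
  have hW : ∀ (S : Type) (V : Ω → S) (Q : Ω → ℝ), IsLaw Q → (∀ ω, 0 < Q ω → 0 < q ω) →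
      CH Q D (fun ω => (V ω, W ω)) ≤ Lf + th := by
    intro S V Q hQ hQq
    have g1 := hU Q hQ hQq (fun _ => 0) (fun _ => Nat.zero_le _)
    have g2 : Lf - (∑ _l : Fin k, (((0 : ℕ) : ℝ))) * Real.log 2 + th = Lf + th := by simp
    rw [g2] at g1
    refine le_trans (CH_mono_cond hQ.nonneg fun ω ω' _ _ hh => ?_) g1
    refine Prod.ext (Prod.ext_iff.1 hh).2 ?_
    funext l
    have g3 : ∀ ω, ⌊(2 : ℝ) ^ 0 * y ω l⌋ = 0 := by
      intro ω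
      rw [pow_zero, one_mul, Int.floor_eq_zero_iff]
      exact ⟨y0 ω l, y1 ω l⟩
    show ⌊(2 : ℝ) ^ 0 * y ω l⌋ = ⌊(2 : ℝ) ^ 0 * y ω' l⌋
    rw [g3, g3]
  have hth' : (2 * th + Real.log 2) / Pe q E ≤ (2 * th + Real.log 2) / e :=
    div_le_div_of_nonneg_left (by
      have := Real.log_pos (show (1 : ℝ) < 2 by norm_num)
      linarith) he0 heE
  have hfa : Lf - (2 * th + Real.log 2) / e ≤ CH Q D (fun ω => (A ω, W ω)) := by
    have := CH_cond_low hq e2 D (fun ω => (A ω, W ω)) hA (hW _ A) hth0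
    rw [← hQ] at this
    linarith
  have hfb : Lf - (2 * th + Real.log 2) / e ≤ CH Q D (fun ω => (B ω, W ω)) := by
    have := CH_cond_low hq e2 D (fun ω => (B ω, W ω)) hB (hW _ B) hth0
    rw [← hQ] at this
    linarith
  have hth'0 : 0 ≤ (2 * th + Real.log 2) / e := by
    have := Real.log_pos (show (1 : ℝ) < 2 by norm_num)
    positivity
  have hrow := e10 (A := A) (B := B) (W := W) (D := D) (Lf := Lf) hQl hQq hth'0
    (fun ω ω' h1 h2 h3 => da ω ω' (hQq ω h1).2 (hQq ω' h2).2 h3)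
    (fun ω ω' h1 h2 h3 => db ω ω' (hQq ω h1).2 (hQq ω' h2).2 h3)
    (fun ω ω' h1 h2 h3 => by
      have g1 := dy ω ω' (hQq ω h1).2 (hQq ω' h2).2 h3
      funext l
      unfold Pool.R1.cv
      rw [g1])
    (fun d hd => by
      have g1 := hU Q hQl (fun ω hω => (hQq ω hω).2) (fun l => d l * Y) (fun l =>
        ((Nat.mul_le_mul_right Y (hd l)).trans (hJd _)).trans ((Nat.sub_le _ _).trans hmY))
      have g2 : (∑ l, ((d l * Y : ℕ) : ℝ)) * Real.log 2 = (∑ l, (d l : ℝ)) * (Y * Real.log 2) := by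
        push_cast
        rw [← Finset.sum_mul]
        ring
      rw [g2] at g1
      exact g1.trans (by linarith))
    hfb hfa
  unfold Pool.R1.Rows at hrow
  have hn₂ : n₂ ≤ X + (h + cG) := by omega
  have k1 : CH Q (fun ω => ⌊(2 : ℝ) ^ n₂ * (N ω / 2 ^ (h + cG))⌋)
      (fun ω => (⌊(2 : ℝ) ^ n₁ * (N ω / 2 ^ (h + cG))⌋, (D ω, W ω))) ≤
      CH Q (fun ω => ⌊(2 : ℝ) ^ n₂ * (N ω / 2 ^ (h + cG))⌋) (fun ω => (D ω, W ω)) :=
    CH_mono_cond hQl.nonneg fun _ _ _ _ hh => (Prod.ext_iff.1 hh).2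
  have k2 : CH Q (fun ω => ⌊(2 : ℝ) ^ n₂ * (N ω / 2 ^ (h + cG))⌋) (fun ω => (D ω, W ω)) ≤
      CH Q (fun ω => ⌊(2 : ℝ) ^ X * N ω⌋) (fun ω => (D ω, W ω)) :=
    CH_mono_left hQl.nonneg fun ω ω' _ _ hh => fl_resc hn₂ (Prod.ext_iff.1 hh).1
  -- the number of rows
  have hn₁ : n₁ ≤ (R + 1) * Y := by
    refine e5.trans (max_le ?_ ?_) <;> omega
  have hMm : M ≤ m := by
    have g1 : M * Y ≤ m * Y := by omega
    exact Nat.le_of_mul_le_mul_right g1 (by omega)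
  have hnn : (m : ℤ) * Y - (2 * R + 3) * Y ≤ (n₂ : ℤ) - n₁ := by
    have g1 : m * Y ≤ n₂ + ((R + 1) * Y + Z + c) := by omega
    have g2 : Z + c ≤ Y := by omega
    have g3 : m * Y + n₁ ≤ n₂ + ((2 * R + 3) * Y) := by
      have : (2 * R + 3) * Y = (R + 1) * Y + Y + (R + 1) * Y := by ring
      omega
    have g4 : ((m * Y + n₁ : ℕ) : ℤ) ≤ ((n₂ + ((2 * R + 3) * Y) : ℕ) : ℤ) := by exact_mod_cast g3
    push_cast at g4
    linarith
  have hnr : ((m : ℝ) - (2 * R + 3)) * Y ≤ (n₂ : ℝ) - n₁ := by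
    have g1 : (((m : ℤ) * Y - (2 * R + 3) * Y : ℤ) : ℝ) ≤ (((n₂ : ℤ) - n₁ : ℤ) : ℝ) := by
      exact_mod_cast hnn
    push_cast at g1
    linarith
  have hl : 0 < Real.log 2 := Real.log_pos (by norm_num)
  have k3 := mul_le_mul_of_nonneg_right hnr hl.le
  have hMr : (M : ℝ) ≤ m := by exact_mod_cast hMm
  have k4 : C1 * (((M : ℝ) + 1) * ((2 * th + Real.log 2) / e) + Y) +
      C2 * (((M : ℝ) + 1) * (1 + Z)) ≤
      C1 * (((m : ℝ) + 1) * ((2 * th + Real.log 2) / e) + Y) +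
      C2 * (((m : ℝ) + 1) * (1 + Z)) := by
    have g1 : ((M : ℝ) + 1) * ((2 * th + Real.log 2) / e) ≤
        ((m : ℝ) + 1) * ((2 * th + Real.log 2) / e) :=
      mul_le_mul_of_nonneg_right (by linarith) hth'0
    have g2 : ((M : ℝ) + 1) * (1 + (Z : ℝ)) ≤ ((m : ℝ) + 1) * (1 + Z) :=
      mul_le_mul_of_nonneg_right (by linarith) (by positivity)
    exact add_le_add (mul_le_mul_of_nonneg_left (by linarith) hC1)
      (mul_le_mul_of_nonneg_left g2 hC2)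
  linarith

end Pool.LF65
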